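import Pool.Agent.Helper54.EV.Girth
import Pool.Agent.Helper13.EV.Main
import Pool.Agent.Helper63.EV.Blocks
import Pool.Agent.Helper13.TD.Main

/-!
# The final induction
-/

set_option autoImplicit false

namespace Pool.Agent.Helper54.EV

open Pool.Agent.Helper54.LA Pool.Agent.Helper29.BA Pool.Agent.Helper29.PA Pool.Agent.Helper3.FJ
  Pool.Agent.Helper13.LT Pool.Agent.Helper26.LT Pool.Agent.Helper9.EV Pool.Agent.Helper9.TD
  Pool.Agent.Helper54.TD

open scoped MatrixGroups

variable {C : ∀ (G : Type) [Group G], Prop}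

/-- Finitely many homomorphisms to groups of the class. -/
theorem exists_joint (hC : ClosedClass C) {G : Type} [Group G] {ι : Type} (s : Finset ι)
    (K : ι → Set G) (h : ∀ i, ∃ (Q : Type) (_ : Group Q) (f : G →* Q), C Q ∧
      ∀ g, f g = 1 → g ∈ K i) :
    ∃ (Q : Type) (_ : Group Q) (f : G →* Q), C Q ∧ ∀ g, f g = 1 → ∀ i ∈ s, g ∈ K i := by
  classical
  induction s using Finset.induction_on with
  | empty => exact ⟨PUnit, inferInstance, 1, hC.finite _ inferInstance, by simp⟩
  | insert i s _ ih =>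
    obtain ⟨Q, _, f, hQ, hf⟩ := ih
    obtain ⟨Q', _, f', hQ', hf'⟩ := h i
    refine ⟨Q' × Q, inferInstance, f'.prod f, hC.prod _ _ hQ' hQ, fun g hg j hj => ?_⟩
    rw [MonoidHom.prod_apply, Prod.mk_eq_one] at hg
    rcases Finset.mem_insert.1 hj with rfl | hj
    · exact hf' g hg.1
    · exact hf g hg.2 j hj

variable {S : Type} {M : CoxeterMatrix S}

/-- All homomorphisms which kill generators in `E`. -/
theorem exists_kill (hC : ClosedClass C) [Finite S] {E : Set S} (hE : EvT M E)
    (h : ∀ K ⊆ E, K.Nonempty → C (ArtinGroup (LA.res M Kᶜ))) :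
    ∃ (Q : Type) (_ : Group Q) (f : ArtinGroup M →* Q), C Q ∧ ∀ g, f g = 1 →
      ∀ K ⊆ E, K.Nonempty → ∀ hK : EvenOn M K, kill M K hK g = 1 := by
  classical
  have := Fintype.ofFinite S
  obtain ⟨Q, hQ, f, h1, h2⟩ := exists_joint hC (Finset.univ : Finset (Finset S))
    (fun K => {g | (K : Set S) ⊆ E → (K : Set S).Nonempty → ∀ hK : EvenOn M (K : Set S),
      kill M K hK g = 1}) (G := ArtinGroup M) fun K => by
      by_cases hKE : (K : Set S) ⊆ E ∧ (K : Set S).Nonempty
      · have hK : EvenOn M (K : Set S) := fun k hk => hE.even k (hKE.1 hk)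
        exact ⟨_, inferInstance, kill M K hK, h _ hKE.1 hKE.2, fun g hg _ _ _ => hg⟩
      · exact ⟨PUnit, inferInstance, 1, hC.finite _ inferInstance,
          fun g _ h1 h2 => absurd ⟨h1, h2⟩ hKE⟩
  refine ⟨Q, hQ, f, h1, fun g hg K hKE hne hK => ?_⟩
  obtain ⟨K', rfl⟩ : ∃ K' : Finset S, (K' : Set S) = K :=
    ⟨(Set.toFinite K).toFinset, (Set.toFinite K).coe_toFinset⟩
  exact h2 g hg K' (Finset.mem_univ _) hKE hne hK

/-- The step of the final induction. -/
theorem artin_step (hE : ExtClass C) (hC : CatClass C) [Finite S] {E : Set S}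
    (hM : EvT M E)
    (ih : ∀ K ⊆ E, K.Nonempty → C (ArtinGroup (LA.res M Kᶜ)))
    (T : Set S) (hT : T ⊆ E) (h2 : TwoDim (LA.res M Tᶜ))
    (hst : ∀ J : Finset ↥Tᶜ, SJ (LA.res M Tᶜ) J →
      ∀ y ∈ Par M (T ∪ Subtype.val '' (J : Set ↥Tᶜ)),
      (∀ K ⊆ E, K.Nonempty → ∀ hK : EvenOn M K, kill M K hK y = 1) → y = 1) :
    C (ArtinGroup M) := by
  obtain ⟨Q, hQ, f, hCQ, hf⟩ := exists_kill hC.toClosedClass hM ih
  have hrs : RS (LA.res M Tᶜ) (Par M T) (fun x : ↥Tᶜ => Par M (insert x.1 T)) :=
    rs_par T fun s u hs hu hsu hsu0 => rg_par _ hM T hT rfl s u hs hu hsu hsu0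
  obtain ⟨V, _, X, τ, c0, hTK, hA, hX, -, -, -, -, h8, h9⟩ := Pool.Agent.Helper63.EV.rel_cx hrs
  refine Pool.Agent.Helper13.EV.mainI hC hE h2 hTK hA hX fun _ => ⟨Q, hQ, f, hCQ, ?_⟩
  intro v _ x hx hfx
  obtain ⟨g, hg⟩ := h8 v
  have hy := (hg x).1 hx
  rw [pj_par] at hy
  have h1 : g⁻¹ * x * g = 1 := by
    refine hst _ (h9 v) _ hy fun K hKE hne hK => hf _ ?_ K hKE hne hK
    rw [map_mul, map_mul, hfx, mul_one, map_inv, inv_mul_cancel]
  rw [mul_assoc, inv_mul_eq_one] at h1
  exact (mul_eq_right.1 h1.symm)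

/-- The case of spherical triples only. -/
theorem blocks [Finite S] {E : Set S} (hM : EvT M E)
    (hsp : ∀ i ∈ E, ∀ j ∈ E, ∀ k ∈ E, i ≠ j → j ≠ k → i ≠ k → Sp3 M i j k)
    (hex : ∃ i ∈ E, ∃ j ∈ E, ∃ k ∈ E, i ≠ j ∧ j ≠ k ∧ i ≠ k) {x : ArtinGroup M}
    (hx : x ∈ Par M E)
    (h : ∀ K ⊆ E, K.Nonempty → ∀ hK : EvenOn M K, kill M K hK x = 1) : x = 1 := by
  classical
  obtain ⟨fam, h1, h2⟩ := Pool.Agent.Helper63.EV.exists_blocks E hM.even
    (fun i hi j hj k hk hij hjk hik => hsp i hi j hj k hk hij hjk hik)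
  refine h2 x hx fun W hW hKe => h W (h1 W hW).1 ?_ hKe
  rw [Set.nonempty_iff_ne_empty]
  rintro rfl
  obtain ⟨i, hi, j, hj, k, hk, hij, hjk, hik⟩ := hex
  have h3 := (h1 ∅ hW).2
  have h4 : ({i, j, k} : Set S) ⊆ E \ ∅ := by
    rw [Set.sdiff_empty, Set.insert_subset_iff, Set.insert_subset_iff, Set.singleton_subset_iff]
    exact ⟨hi, hj, hk⟩
  have h5 := Set.ncard_le_ncard h4 (Set.toFinite _)
  rw [Set.ncard_eq_three.2 ⟨i, j, k, hij, hik, hjk, rfl⟩] at h5
  omega

/-- The final induction. -/
theorem artin_even_finite (hE : ExtClass C) (hC : CatClass C) (hGL : ∀ n, C (GL (Fin n) ℤ))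
    (n : ℕ) : ∀ {S : Type} [Finite S] {M : CoxeterMatrix S} {E : Set S}, EvT M E →
      Nat.card S = n → C (ArtinGroup M) := by
  classical
  induction n using Nat.strong_induction_on with
  | _ n ih =>
    intro S _ M E hM hn
    by_cases h2 : TwoDim M
    · exact artin_twoDim M hC.toClosedClass hGL h2 fun h2 hT hA hX hQ =>
        Pool.Agent.Helper13.TD.mainT hC hE h2 hT hA hX hQ
    have ih' : ∀ K ⊆ E, K.Nonempty → C (ArtinGroup (LA.res M Kᶜ)) := by
      rintro K - ⟨k, hk⟩
      refine ih (Nat.card ↥Kᶜ) ?_ (hM.res Kᶜ) rfl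
      rw [← hn]
      have h3 : (Kᶜ).ncard < (Set.univ : Set S).ncard :=
        Set.ncard_lt_ncard (Set.ssubset_univ_iff.2 fun h => (h ▸ Set.mem_univ k : k ∈ Kᶜ) hk)
          (Set.toFinite _)
      rwa [Set.ncard_univ] at h3
    -- a spherical triple
    have hex : ∃ i ∈ E, ∃ j ∈ E, ∃ k ∈ E, i ≠ j ∧ j ≠ k ∧ i ≠ k := by
      by_contra hne
      push Not at hne
      refine h2 fun s t u hst htu hsu h1 h3 h4 => ?_
      by_contra hlt
      rw [not_le] at hlt
      obtain ⟨es, et, eu⟩ := hM.all hst htu hsu ⟨h1, h3, h4, hlt⟩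
      exact hsu (hne s es t et u eu hst htu)
    by_cases hsp : ∀ i ∈ E, ∀ j ∈ E, ∀ k ∈ E, i ≠ j → j ≠ k → i ≠ k → Sp3 M i j k
    · -- all triples are spherical
      obtain ⟨i, hi, j, hj, k, hk, hij, hjk, hik⟩ := hex
      refine artin_step hE hC hM ih' (E \ {i, j}) Set.sdiff_subset
        (hM.twoDim' (i := i) (j := j) fun e he heT => ?_) ?_
      · by_contra hne
        push Not at hne
        exact heT ⟨he, by simp [hne.1, hne.2]⟩
      · intro J hJ y hy hy1
        by_cases hiJ : i ∈ Subtype.val '' (J : Set ↥(E \ {i, j})ᶜ)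
        · by_cases hjJ : j ∈ Subtype.val '' (J : Set ↥(E \ {i, j})ᶜ)
          · -- the parabolic subgroup of `E`
            have hJE : Subtype.val '' (J : Set ↥(E \ {i, j})ᶜ) ⊆ {i, j} := by
              obtain ⟨a, ha, ha'⟩ := hiJ
              obtain ⟨b, hb, hb'⟩ := hjJ
              have hab : a ≠ b := fun e => hij (ha'.symm.trans ((congrArg Subtype.val e).trans hb'))
              have h3 : ({a, b} : Finset _) = J := by
                refine Finset.eq_of_subset_of_card_le ?_ ?_
                · rw [Finset.insert_subset_iff, Finset.singleton_subset_iff]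
                  exact ⟨ha, hb⟩
                · rw [Finset.card_pair hab]
                  exact hJ.1
              rw [← h3, Finset.coe_pair, Set.image_pair]
              rintro x (hx | hx)
              · exact Or.inl (hx.trans ha')
              · exact Or.inr (Set.mem_singleton_iff.2 ((Set.mem_singleton_iff.1 hx).trans hb'))
            have hU : E \ {i, j} ∪ Subtype.val '' (J : Set ↥(E \ {i, j})ᶜ) ⊆ E := by
              refine Set.union_subset Set.sdiff_subset (hJE.trans ?_)
              rintro x (rfl | rfl)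
              · exact hi
              · exact hj
            exact blocks hM hsp ⟨i, hi, j, hj, k, hk, hij, hjk, hik⟩ (par_mono M hU hy) hy1
          · refine eq_one_of_kill (K := {j}) (fun e he => ?_) ?_ hy
              (hy1 {j} (Set.singleton_subset_iff.2 hj) ⟨j, rfl⟩ _)
            · exact hM.even e (he ▸ hj)
            · rintro u (hu | hu) rfl
              · exact hu.2 (by simp)
              · exact hjJ hu
        · refine eq_one_of_kill (K := {i}) (fun e he => ?_) ?_ hy
            (hy1 {i} (Set.singleton_subset_iff.2 hi) ⟨i, rfl⟩ _)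
          · exact hM.even e (he ▸ hi)
          · rintro u (hu | hu) rfl
            · exact hu.2 (by simp)
            · exact hiJ hu
    · -- a triple which is not spherical
      push Not at hsp
      obtain ⟨i, hi, j, hj, k, hk, hij, hjk, hik, hns⟩ := hsp
      refine artin_step hE hC hM ih' (E \ {i, j, k}) Set.sdiff_subset
        (hM.twoDim (i := i) (j := j) (k := k) (fun e he heT => ?_) hns) ?_
      · by_contra hne
        push Not at hne
        exact heT ⟨he, by simp [hne.1, hne.2.1, hne.2.2]⟩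
      · intro J hJ y hy hy1
        have hex : ∃ e ∈ ({i, j, k} : Set S), e ∉ Subtype.val '' (J : Set ↥(E \ {i, j, k})ᶜ) := by
          by_contra hall
          push Not at hall
          obtain ⟨a, ha, ha'⟩ := hall i (by simp)
          obtain ⟨b, hb, hb'⟩ := hall j (by simp)
          obtain ⟨c, hc, hc'⟩ := hall k (by simp)
          have h3 : ({a, b, c} : Finset _) ⊆ J := by
            rw [Finset.insert_subset_iff, Finset.insert_subset_iff, Finset.singleton_subset_iff]
            exact ⟨ha, hb, hc⟩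
          have h4 := Finset.card_le_card h3
          rw [Finset.card_eq_three.2 ⟨a, b, c,
            fun e => hij (ha'.symm.trans ((congrArg Subtype.val e).trans hb')),
            fun e => hik (ha'.symm.trans ((congrArg Subtype.val e).trans hc')),
            fun e => hjk (hb'.symm.trans ((congrArg Subtype.val e).trans hc')), rfl⟩] at h4
          have := hJ.1
          omega
        obtain ⟨e, he, heJ⟩ := hex
        have heE : e ∈ E := by
          rcases he with rfl | rfl | rfl
          · exact hi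
          · exact hj
          · exact hk
        refine eq_one_of_kill (K := {e}) (fun x hx => ?_) ?_ hy
          (hy1 {e} (Set.singleton_subset_iff.2 heE) ⟨e, rfl⟩ _)
        · exact hM.even x (hx ▸ heE)
        · rintro u (hu | hu) rfl
          · exact hu.2 he
          · exact heJ hu

/-- The theorem for arbitrary rank. -/
theorem artin_even (hE : ExtClass C) (hC : CatClass C) (hGL : ∀ n, C (GL (Fin n) ℤ))
    {S : Type} (M : CoxeterMatrix S) (hM : ETri M) : C (ArtinGroup M) := by
  refine of_finite M hC.toClosedClass fun i => ?_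
  have h1 : EvT M {v | ∀ w, w ≠ v → Even (M v w)} :=
    ⟨fun k hk v hv => hk v hv, fun s t u hst htu hsu h w hw => hM s t u hst htu hsu h w hw⟩
  exact artin_even_finite hE hC hGL _ (h1.res (i : Set S)) rfl

end Pool.Agent.Helper54.EV
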