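import Pool.Agent.Helper54.EV.Rg
import Pool.Agent.Helper9.EV.Step
import Pool.Agent.Helper63.EV.RelCx
import Pool.Agent.Helper83.EV.RG

/-!
# The relative girth of parabolic subgroups of Artin groups
-/

set_option autoImplicit false

namespace Pool.Agent.Helper54.EV

open Pool.Agent.Helper54.LA Pool.Agent.Helper29.BA Pool.Agent.Helper13.LT Pool.Agent.Helper26.LT
  Pool.Agent.Helper9.EV Pool.Agent.Helper9.TD

variable {S : Type} {M : CoxeterMatrix S}

theorem sp3_swap {s t u : S} (h : Sp3 M s t u) : Sp3 M t s u := by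
  obtain ⟨h1, h2, h3, h4⟩ := h
  refine ⟨by rwa [M.symmetric], h3, h2, ?_⟩
  rw [M.symmetric t s, add_assoc, add_comm ((1 : ℚ) / M s u), ← add_assoc]
  exact h4

theorem sp3_rot {s t u : S} (h : Sp3 M s t u) : Sp3 M t u s := by
  obtain ⟨h1, h2, h3, h4⟩ := h
  refine ⟨h2, by rwa [M.symmetric], by rwa [M.symmetric], ?_⟩
  rw [M.symmetric t s, M.symmetric u s]
  linarith

/-- `E` is a set of even generators which contains all spherical triples. -/
structure EvT (M : CoxeterMatrix S) (E : Set S) : Prop where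
  even : EvenOn M E
  tri : ∀ s t u, s ≠ t → t ≠ u → s ≠ u → Sp3 M s t u → s ∈ E

theorem EvT.all {E : Set S} (h : EvT M E) {s t u : S} (hst : s ≠ t) (htu : t ≠ u) (hsu : s ≠ u)
    (h1 : Sp3 M s t u) : s ∈ E ∧ t ∈ E ∧ u ∈ E :=
  ⟨h.tri s t u hst htu hsu h1, h.tri t s u hst.symm hsu htu (sp3_swap h1),
    h.tri u s t hsu.symm hst htu.symm (sp3_rot (sp3_rot h1))⟩

theorem EvT.res {E : Set S} (h : EvT M E) (U : Set S) :
    EvT (LA.res M U) (Subtype.val ⁻¹' E) where
  even := evenOn_res h.even U
  tri := fun s t u hst htu hsu h1 =>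
    h.tri s.1 t.1 u.1 (fun e => hst (Subtype.ext e)) (fun e => htu (Subtype.ext e))
      (fun e => hsu (Subtype.ext e)) h1

/-- The generators outside of `T` have no spherical triples if all but three elements of `E` are
in `T` and these three are not a spherical triple. -/
theorem EvT.twoDim {E : Set S} (h : EvT M E) {T : Set S} {i j k : S}
    (hE : ∀ e ∈ E, e ∉ T → e = i ∨ e = j ∨ e = k) (hn : ¬ Sp3 M i j k) :
    TwoDim (LA.res M Tᶜ) := by
  rintro ⟨s, hs⟩ ⟨t, ht⟩ ⟨u, hu⟩ hst htu hsu h1 h2 h3
  rw [res_apply] at h1 h2 h3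
  have hst' : s ≠ t := fun e => hst (Subtype.ext e)
  have htu' : t ≠ u := fun e => htu (Subtype.ext e)
  have hsu' : s ≠ u := fun e => hsu (Subtype.ext e)
  by_contra hlt
  rw [not_le] at hlt
  have hsp : Sp3 M s t u := ⟨h1, h2, h3, hlt⟩
  obtain ⟨es, et, eu⟩ := h.all hst' htu' hsu' hsp
  have hs' := hE s es hs
  have ht' := hE t et ht
  have hu' := hE u eu hu
  rcases hs' with rfl | rfl | rfl <;> rcases ht' with rfl | rfl | rfl <;>
    rcases hu' with rfl | rfl | rfl <;>
    first
    | exact hst' rfl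
    | exact htu' rfl
    | exact hsu' rfl
    | exact hn hsp
    | exact hn (sp3_swap hsp)
    | exact hn (sp3_rot hsp)
    | exact hn (sp3_rot (sp3_rot hsp))
    | exact hn (sp3_swap (sp3_rot hsp))
    | exact hn (sp3_swap (sp3_rot (sp3_rot hsp)))

theorem EvT.twoDim' {E : Set S} (h : EvT M E) {T : Set S} {i j : S}
    (hE : ∀ e ∈ E, e ∉ T → e = i ∨ e = j) : TwoDim (LA.res M Tᶜ) := by
  rintro ⟨s, hs⟩ ⟨t, ht⟩ ⟨u, hu⟩ hst htu hsu h1 h2 h3
  rw [res_apply] at h1 h2 h3
  have hst' : s ≠ t := fun e => hst (Subtype.ext e)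
  have htu' : t ≠ u := fun e => htu (Subtype.ext e)
  have hsu' : s ≠ u := fun e => hsu (Subtype.ext e)
  by_contra hlt
  rw [not_le] at hlt
  have hsp : Sp3 M s t u := ⟨h1, h2, h3, hlt⟩
  obtain ⟨es, et, eu⟩ := h.all hst' htu' hsu' hsp
  have hs' := hE s es hs
  have ht' := hE t et ht
  have hu' := hE u eu hu
  rcases hs' with rfl | rfl <;> rcases ht' with rfl | rfl <;>
    rcases hu' with rfl | rfl <;>
    first
    | exact hst' rfl
    | exact htu' rfl
    | exact hsu' rfl

theorem par_sup_insert (T : Set S) (t i : S) :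
    Par M (insert t T) ⊔ Par M (insert i T) = Par M (insert i (insert t T)) := by
  rw [← par_union]
  congr 1
  ext x
  simp only [Set.mem_union, Set.mem_insert_iff]
  tauto

theorem EvT.eTri {E : Set S} (h : EvT M E) : ETri M :=
  fun s t u hst htu hsu h1 v hv => h.even s (h.tri s t u hst htu hsu h1) v hv

/-- The relative girth of parabolic subgroups. -/
theorem rg_par (n : ℕ) : ∀ {S : Type} [Finite S] {M : CoxeterMatrix S} {E : Set S}, EvT M E → ∀ T : Set S,
      T ⊆ E → T.ncard = n → ∀ i j, i ∉ T → j ∉ T → i ≠ j → M i j ≠ 0 →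
      RG (Par M T) (Par M (insert i T)) (Par M (insert j T)) (M i j) := by
  induction n using Nat.strong_induction_on with
  | _ n ih =>
    -- the case without further even generators
    have key : ∀ {S : Type} [Finite S] {M : CoxeterMatrix S} {E : Set S}, EvT M E →
        ∀ T : Set S, T ⊆ E → T.ncard = n → ∀ i j, i ∉ T → j ∉ T → i ≠ j → M i j ≠ 0 →
        (∀ e ∈ E, e ∉ T → e = i ∨ e = j) →
        RG (Par M T) (Par M (insert i T)) (Par M (insert j T)) (M i j) := by
      intro S _ M E hE T hT hn i j hi hj hij h0 hEij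
      by_cases hA : ∃ t ∈ T, ¬ Sp3 M i j t
      · obtain ⟨t, ht, hsp⟩ := hA
        set T1 := T \ {t} with hT1
        have hins : insert t T1 = T := Set.insert_sdiff_self_of_mem ht
        have hcard : T1.ncard < n := by
          rw [← hn, hT1]
          exact Set.ncard_sdiff_singleton_lt_of_mem ht (Set.toFinite T)
        have hit : i ≠ t := fun e => hi (e ▸ ht)
        have hjt : j ≠ t := fun e => hj (e ▸ ht)
        have hrs : RS (LA.res M T1ᶜ) (Par M T1) (fun x : ↥T1ᶜ => Par M (insert x.1 T1)) :=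
          rs_par T1 fun s u hs hu hsu hsu0 =>
            ih _ hcard hE T1 (Set.sdiff_subset.trans hT) rfl s u hs hu hsu hsu0
        have h2 : TwoDim (LA.res M T1ᶜ) := hE.twoDim (i := i) (j := j) (k := t)
          (fun e he heT => by
            by_cases het : e = t
            · exact Or.inr (Or.inr het)
            · rcases hEij e he (fun h => heT ⟨h, het⟩) with h | h
              · exact Or.inl h
              · exact Or.inr (Or.inl h)) hsp
        have hi1 : i ∈ T1ᶜ := fun h => hi h.1
        have hj1 : j ∈ T1ᶜ := fun h => hj h.1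
        have ht1 : t ∈ T1ᶜ := fun h => h.2 rfl
        have := rg_step hrs h2 (Pool.Agent.Helper63.EV.ascInf _) (i := ⟨i, hi1⟩) (j := ⟨j, hj1⟩)
          (t := ⟨t, ht1⟩) (fun e => hij (congrArg Subtype.val e))
          (fun e => hit (congrArg Subtype.val e)) (fun e => hjt (congrArg Subtype.val e)) h0
        change RG (Par M (insert t T1)) (Par M (insert t T1) ⊔ Par M (insert i T1))
          (Par M (insert t T1) ⊔ Par M (insert j T1)) (M i j) at this
        rwa [par_sup_insert, par_sup_insert, hins] at this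
      · push Not at hA
        exact Pool.Agent.Helper83.EV.rg_caseB hE.eTri hij h0 hi hj hA
    -- kill the other even generators
    intro S _ M E hE T hT hn i j hi hj hij h0
    set K : Set S := E \ insert i (insert j T) with hK
    have hKe : EvenOn M K := fun k hk => hE.even k hk.1
    have hiK : i ∈ Kᶜ := fun h => h.2 (Set.mem_insert _ _)
    have hjK : j ∈ Kᶜ := fun h => h.2 (Set.mem_insert_of_mem _ (Set.mem_insert _ _))
    have hTK : T ⊆ Kᶜ := fun t ht h => h.2 (Set.mem_insert_of_mem _ (Set.mem_insert_of_mem _ ht))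
    have hT' : Subtype.val '' (Subtype.val ⁻¹' T : Set ↥Kᶜ) = T := by
      rw [Subtype.image_preimage_coe, Set.inter_eq_right]
      exact hTK
    have hins : ∀ x (hx : x ∈ Kᶜ), Subtype.val '' (insert ⟨x, hx⟩ (Subtype.val ⁻¹' T) : Set ↥Kᶜ) =
        insert x T := by
      intro x hx
      rw [Set.image_insert_eq, hT']
    have h1 := key (hE.res Kᶜ) (Subtype.val ⁻¹' T) (Set.preimage_mono hT)
      (by
        rw [← hn, ← Set.ncard_image_of_injective _ Subtype.val_injective, hT'])
      ⟨i, hiK⟩ ⟨j, hjK⟩ hi hj (fun e => hij (congrArg Subtype.val e)) h0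
      (by
        rintro ⟨e, he⟩ heE heT
        by_contra hne
        push Not at hne
        refine he ⟨heE, ?_⟩
        rintro (rfl | rfl | h)
        · exact hne.1 rfl
        · exact hne.2 rfl
        · exact heT h)
    have h2 := rg_map (toAll_injective hKe) h1
    rw [map_toAll_par, map_toAll_par, map_toAll_par, hins, hins, hT'] at h2
    exact h2

end Pool.Agent.Helper54.EV
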