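import Pool.Agent.Helper54.TD.Fin
import Pool.Agent.Helper9.EV.Defs

/-!
# Parabolic subgroups of Artin groups, and killing even generators
-/

set_option autoImplicit false

namespace Pool.Agent.Helper54.EV

open Pool.Agent.Helper54.LA Pool.Agent.Helper29.BA Pool.Agent.Helper13.LT Pool.Agent.Helper26.LT
  Pool.Agent.Helper9.EV Pool.Agent.Helper9.TD

variable {S : Type} (M : CoxeterMatrix S)

/-- The standard parabolic subgroups. -/
def Par (U : Set S) : Subgroup (ArtinGroup M) := Subgroup.closure (gen M '' U)

theorem gen_mem {U : Set S} {s : S} (hs : s ∈ U) : gen M s ∈ Par M U :=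
  Subgroup.subset_closure ⟨s, hs, rfl⟩

theorem par_mono {U V : Set S} (h : U ⊆ V) : Par M U ≤ Par M V :=
  Subgroup.closure_mono (Set.image_mono h)

theorem par_union (U V : Set S) : Par M (U ∪ V) = Par M U ⊔ Par M V := by
  rw [Par, Set.image_union, Subgroup.closure_union]
  rfl

theorem par_univ : Par M Set.univ = ⊤ := by
  rw [Par, Set.image_univ]
  exact PresentedGroup.closure_range_of _

/-- The generators in `K` have even labels (or `∞`). -/
def EvenOn (K : Set S) : Prop := ∀ k ∈ K, ∀ v, v ≠ k → Even (M k v)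

theorem alt_one_one {G : Type} [Group G] (n : ℕ) : alt (1 : G) 1 n = 1 := by
  induction n with
  | zero => rfl
  | succ n ih => rw [alt, ih, one_mul]

theorem alt_add_two {G : Type} [Group G] (x y : G) (n : ℕ) :
    alt x y (n + 2) = x * y * alt x y n := by
  rw [alt, alt, mul_assoc]

theorem alt_one_left {G : Type} [Group G] (y : G) (n : ℕ) : alt 1 y (2 * n) = y ^ n := by
  induction n with
  | zero => exact (pow_zero y).symm
  | succ n ih => rw [mul_add, mul_one, alt_add_two, ih, one_mul, pow_succ']

theorem alt_one_right {G : Type} [Group G] (y : G) (n : ℕ) : alt y 1 (2 * n) = y ^ n := by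
  induction n with
  | zero => exact (pow_zero y).symm
  | succ n ih => rw [mul_add, mul_one, alt_add_two, ih, mul_one, pow_succ']

theorem alt_one_even {G : Type} [Group G] (y : G) {n : ℕ} (hn : Even n) : alt 1 y n = alt y 1 n := by
  obtain ⟨k, rfl⟩ := hn
  rw [← two_mul, alt_one_left, alt_one_right]

open Classical in
/-- The homomorphism which kills the generators in `K`. -/
noncomputable def kill (K : Set S) (hK : EvenOn M K) : ArtinGroup M →* ArtinGroup (res M Kᶜ) :=
  artinLift M (fun s => if h : s ∈ Kᶜ then gen (res M Kᶜ) ⟨s, h⟩ else 1) fun s t h0 => by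
    by_cases hs : s ∈ Kᶜ
    · by_cases ht : t ∈ Kᶜ
      · simp only [dif_pos hs, dif_pos ht]
        exact artin_braid (res M Kᶜ) ⟨s, hs⟩ ⟨t, ht⟩ h0
      · simp only [dif_pos hs, dif_neg ht]
        have hne : s ≠ t := fun e => ht (e ▸ hs)
        have := hK t (Set.notMem_compl_iff.1 ht) s hne
        rw [M.symmetric t s] at this
        exact (alt_one_even _ this).symm
    · by_cases ht : t ∈ Kᶜ
      · simp only [dif_neg hs, dif_pos ht]
        have hne : t ≠ s := fun e => hs (e ▸ ht)
        exact alt_one_even _ (hK s (Set.notMem_compl_iff.1 hs) t hne)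
      · simp only [dif_neg hs, dif_neg ht]

variable {M}

theorem kill_gen {K : Set S} (hK : EvenOn M K) {s : S} (hs : s ∈ Kᶜ) :
    kill M K hK (gen M s) = gen (res M Kᶜ) ⟨s, hs⟩ := by
  classical
  refine (artinLift_of _ _ _ _).trans ?_
  exact dif_pos hs

theorem kill_gen' {K : Set S} (hK : EvenOn M K) {s : S} (hs : s ∈ K) :
    kill M K hK (gen M s) = 1 := by
  classical
  refine (artinLift_of _ _ _ _).trans ?_
  exact dif_neg (fun h => h hs)

theorem toAll_gen (U : Set S) (s : U) : toAll M U (gen (res M U) s) = gen M s.1 := toAll_of M U s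

theorem kill_toAll {K : Set S} (hK : EvenOn M K) (x : ArtinGroup (res M Kᶜ)) :
    kill M K hK (toAll M Kᶜ x) = x := by
  have : (kill M K hK).comp (toAll M Kᶜ) = MonoidHom.id _ := by
    refine PresentedGroup.ext fun s => ?_
    change kill M K hK (toAll M Kᶜ (gen (res M Kᶜ) s)) = gen (res M Kᶜ) s
    rw [toAll_gen, kill_gen hK s.2]
  exact congrArg (fun f : ArtinGroup (res M Kᶜ) →* ArtinGroup (res M Kᶜ) => f x) this

theorem toAll_injective {K : Set S} (hK : EvenOn M K) : Function.Injective (toAll M Kᶜ) :=
  Function.LeftInverse.injective (kill_toAll hK)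

theorem map_toAll_par (U : Set S) (V : Set U) :
    (Par (res M U) V).map (toAll M U) = Par M (Subtype.val '' V) := by
  rw [Par, MonoidHom.map_closure, Par, Set.image_image, Set.image_image]
  exact congrArg Subgroup.closure (Set.image_congr fun s _ => toAll_gen U s)

/-- The subgroup generated by the generators outside of `K` is a retract. -/
theorem toAll_kill {K : Set S} (hK : EvenOn M K) {x : ArtinGroup M} (hx : x ∈ Par M Kᶜ) :
    toAll M Kᶜ (kill M K hK x) = x := by
  have h : Par M Kᶜ = (Par (res M Kᶜ) Set.univ).map (toAll M Kᶜ) := by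
      rw [map_toAll_par, Set.image_univ, Subtype.range_val]
  rw [h] at hx
  obtain ⟨y, -, rfl⟩ := hx
  rw [kill_toAll]

/-- Killing does not change the elements of parabolic subgroups without the killed generators. -/
theorem eq_one_of_kill {K : Set S} (hK : EvenOn M K) {U : Set S} (hU : ∀ u ∈ U, u ∉ K)
    {x : ArtinGroup M} (hx : x ∈ Par M U) (h1 : kill M K hK x = 1) : x = 1 := by
  rw [← toAll_kill hK (par_mono M (show U ⊆ Kᶜ from hU) hx), h1, map_one]

theorem kill_mem {K : Set S} (hK : EvenOn M K) {U : Set S} {x : ArtinGroup M} (hx : x ∈ Par M U) :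
    toAll M Kᶜ (kill M K hK x) ∈ Par M (U \ K) := by
  induction hx using Subgroup.closure_induction with
  | mem y hy =>
    obtain ⟨s, hs, rfl⟩ := hy
    by_cases h : s ∈ K
    · rw [kill_gen' hK h, map_one]
      exact one_mem _
    · rw [kill_gen hK (show s ∈ Kᶜ from h), toAll_gen]
      exact gen_mem M ⟨hs, h⟩
  | one =>
    rw [map_one, map_one]
    exact one_mem _
  | mul x y _ _ hx hy =>
    rw [map_mul, map_mul]
    exact mul_mem hx hy
  | inv x _ hx =>
    rw [map_inv, map_inv]
    exact inv_mem hx

/-- Intersections of parabolic subgroups: killing even generators. -/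
theorem mem_par_inter {K : Set S} (hK : EvenOn M K) {U V : Set S} (hV : ∀ u ∈ V, u ∉ K)
    {x : ArtinGroup M} (hx : x ∈ Par M U) (hx' : x ∈ Par M V) : x ∈ Par M (U \ K) := by
  rw [← toAll_kill hK (par_mono M (show V ⊆ Kᶜ from hV) hx')]
  exact kill_mem hK hx

theorem evenOn_res {K : Set S} (hK : EvenOn M K) (U : Set S) :
    EvenOn (res M U) (Subtype.val ⁻¹' K) := fun k hk v hv =>
  hK k.1 hk v.1 fun e => hv (Subtype.ext e)

end Pool.Agent.Helper54.EV
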