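import Pool.Agent.Helper54.EV.Par

/-!
# Relative systems of subgroups in Artin groups
-/

set_option autoImplicit false

namespace Pool.Agent.Helper54.EV

open Pool.Agent.Helper54.LA Pool.Agent.Helper29.BA Pool.Agent.Helper13.LT Pool.Agent.Helper26.LT
  Pool.Agent.Helper9.EV Pool.Agent.Helper9.TD

/-! ### Relative girth and injective homomorphisms -/

section

variable {G H : Type} [Group G] [Group H] {f : G →* H}

theorem exists_alt {B P Q : Subgroup G} {n : ℕ} {g : H}
    (h : Alt (B.map f) (P.map f) (Q.map f) n g) : ∃ g', g = f g' ∧ Alt B P Q n g' := by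
  have key : ∀ (P' Q' : Subgroup H) (n : ℕ) (g : H), Alt (B.map f) P' Q' n g →
      ∀ P Q : Subgroup G, P' = P.map f → Q' = Q.map f → ∃ g', g = f g' ∧ Alt B P Q n g' := by
    intro P' Q' n g h
    induction h with
    | nil P' Q' =>
      intro P Q _ _
      exact ⟨1, (map_one f).symm, Alt.nil P Q⟩
    | @cons P' Q' n g h hg hgB _ ih =>
      rintro P Q rfl rfl
      obtain ⟨h', rfl, h2⟩ := ih Q P rfl rfl
      obtain ⟨g', hg', rfl⟩ := hg
      exact ⟨g' * h', (map_mul f _ _).symm,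
        Alt.cons hg' (fun hb => hgB (Subgroup.mem_map_of_mem f hb)) h2⟩
  exact key _ _ _ _ h P Q rfl rfl

theorem rg_map (hf : Function.Injective f) {B P Q : Subgroup G} {m : ℕ} (h : RG B P Q m) :
    RG (B.map f) (P.map f) (Q.map f) m := by
  rintro n g h0 (h1 | h1) hB
  · obtain ⟨g', rfl, h2⟩ := exists_alt h1
    obtain ⟨b, hb, hb'⟩ := hB
    exact h n g' h0 (Or.inl h2) (hf hb' ▸ hb)
  · obtain ⟨g', rfl, h2⟩ := exists_alt h1
    obtain ⟨b, hb, hb'⟩ := hB
    exact h n g' h0 (Or.inr h2) (hf hb' ▸ hb)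

end

/-! ### The universal property -/

variable {S : Type} {M : CoxeterMatrix S}

/-- The subgroup of a set of types. -/
theorem pj_par (T : Set S) (J : Finset ↥Tᶜ) :
    PJ (Par M T) (fun x : ↥Tᶜ => Par M (insert x.1 T)) J =
      Par M (T ∪ Subtype.val '' (J : Set ↥Tᶜ)) := by
  apply le_antisymm
  · refine sup_le (par_mono M Set.subset_union_left) (iSup₂_le fun s hs => par_mono M ?_)
    rw [Set.insert_subset_iff]
    exact ⟨Or.inr ⟨s, hs, rfl⟩, Set.subset_union_left⟩
  · rw [Par, Subgroup.closure_le]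
    rintro _ ⟨s, hs | ⟨s, hs, rfl⟩, rfl⟩
    · exact (le_sup_left : _ ≤ PJ (Par M T) _ J) (gen_mem M hs)
    · refine (le_sup_right : _ ≤ PJ (Par M T) _ J) ?_
      exact (le_iSup₂ (f := fun (x : ↥Tᶜ) (_ : x ∈ J) => Par M (insert x.1 T)) s hs)
        (gen_mem M (Set.mem_insert _ _))

/-- An Artin group is the colimit of the subgroups generated by `T` and at most two further
generators. -/
theorem amal_par (T : Set S) :
    Amal (res M Tᶜ) (Par M T) (fun x : ↥Tᶜ => Par M (insert x.1 T)) := by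
  classical
  intro K _ φ hmul hcomp'
  have hcomp : ∀ J J', SJ (res M Tᶜ) J → SJ (res M Tᶜ) J' → J ⊆ J' →
      ∀ x ∈ PJ (Par M T) (fun x : ↥Tᶜ => Par M (insert x.1 T)) J, φ J x = φ J' x :=
    fun J J' _ h h' x hx => (hcomp' J J' h' h x hx).symm
  have hS0 : SJ (res M Tᶜ) ∅ := ⟨by simp, by simp⟩
  have hS1 : ∀ s, SJ (res M Tᶜ) {s} := fun s => ⟨by simp, by
    intro a ha b hb
    rw [Finset.mem_singleton.1 ha, Finset.mem_singleton.1 hb, CoxeterMatrix.diagonal]
    exact one_ne_zero⟩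
  -- the homomorphism on the generators
  set F : S → K := fun s => if h : s ∈ Tᶜ then φ {⟨s, h⟩} (gen M s) else φ ∅ (gen M s) with hF
  have hmem : ∀ (J : Finset ↥Tᶜ) (s : S), (∀ h : s ∈ Tᶜ, (⟨s, h⟩ : ↥Tᶜ) ∈ J) →
      gen M s ∈ PJ (Par M T) (fun x : ↥Tᶜ => Par M (insert x.1 T)) J := by
    intro J s hs
    rw [pj_par]
    by_cases h : s ∈ Tᶜ
    · exact gen_mem M (Or.inr ⟨⟨s, h⟩, hs h, rfl⟩)
    · exact gen_mem M (Or.inl (Set.notMem_compl_iff.1 h))
  have hFJ : ∀ (J : Finset ↥Tᶜ), SJ (res M Tᶜ) J → ∀ s : S, (∀ h : s ∈ Tᶜ, (⟨s, h⟩ : ↥Tᶜ) ∈ J) →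
      F s = φ J (gen M s) := by
    intro J hJ s hs
    by_cases h : s ∈ Tᶜ
    · simp only [hF, dif_pos h]
      refine hcomp _ _ (hS1 _) hJ (Finset.singleton_subset_iff.2 (hs h)) _ (hmem _ _ ?_)
      intro h'
      exact Finset.mem_singleton_self _
    · simp only [hF, dif_neg h]
      exact hcomp _ _ hS0 hJ (Finset.empty_subset _) _ (hmem _ _ fun h' => absurd h' h)
  -- values at products
  have hone : ∀ J, SJ (res M Tᶜ) J → φ J 1 = 1 := by
    intro J hJ
    have := hmul J hJ 1 (one_mem _) 1 (one_mem _)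
    rw [mul_one] at this
    exact (mul_eq_left.1 this.symm)
  have halt : ∀ J, SJ (res M Tᶜ) J → ∀ (n : ℕ) (x y : ArtinGroup M),
      x ∈ PJ (Par M T) (fun x : ↥Tᶜ => Par M (insert x.1 T)) J →
      y ∈ PJ (Par M T) (fun x : ↥Tᶜ => Par M (insert x.1 T)) J →
      φ J (alt x y n) = alt (φ J x) (φ J y) n ∧
        alt x y n ∈ PJ (Par M T) (fun x : ↥Tᶜ => Par M (insert x.1 T)) J := by
    intro J hJ n
    induction n with
    | zero =>
      intro x y _ _
      exact ⟨hone J hJ, one_mem _⟩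
    | succ n ih =>
      intro x y hx hy
      obtain ⟨h1, h2⟩ := ih y x hy hx
      refine ⟨?_, mul_mem hx h2⟩
      rw [alt, hmul J hJ x hx _ h2, h1]
      rfl
  let Φ : ArtinGroup M →* K := artinLift M F (by
    intro s t h0
    -- the types of `s` and `t`
    set J : Finset ↥Tᶜ := (({s, t} : Finset S).subtype (· ∈ Tᶜ)) with hJd
    have hJ : SJ (res M Tᶜ) J := by
      constructor
      · rw [hJd, Finset.card_subtype]
        exact (Finset.card_filter_le _ _).trans (Finset.card_le_two)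
      · intro a ha b hb
        have ha' : a.1 ∈ ({s, t} : Finset S) := Finset.mem_subtype.1 ha
        have hb' : b.1 ∈ ({s, t} : Finset S) := Finset.mem_subtype.1 hb
        rw [Finset.mem_insert, Finset.mem_singleton] at ha' hb'
        rw [res_apply]
        rcases ha' with ha' | ha' <;> rcases hb' with hb' | hb' <;> rw [ha', hb']
        · rw [M.diagonal]
          exact one_ne_zero
        · exact h0
        · rw [M.symmetric]
          exact h0
        · rw [M.diagonal]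
          exact one_ne_zero
    have hs : ∀ h : s ∈ Tᶜ, (⟨s, h⟩ : ↥Tᶜ) ∈ J := fun h => Finset.mem_subtype.2 (by simp)
    have ht : ∀ h : t ∈ Tᶜ, (⟨t, h⟩ : ↥Tᶜ) ∈ J := fun h => Finset.mem_subtype.2 (by simp)
    rw [hFJ J hJ s hs, hFJ J hJ t ht, ← (halt J hJ _ _ _ (hmem J s hs) (hmem J t ht)).1,
      ← (halt J hJ _ _ _ (hmem J t ht) (hmem J s hs)).1]
    exact congrArg (φ J) (artin_braid M s t h0))
  have hΦ : ∀ s, Φ (gen M s) = F s := fun s => artinLift_of _ _ _ _
  refine ⟨Φ, fun J hJ x hx => ?_⟩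
  have hx' := hx
  rw [pj_par] at hx'
  have key : ∀ x ∈ Par M (T ∪ Subtype.val '' (J : Set ↥Tᶜ)), Φ x = φ J x := by
    intro x hx
    have hpj : ∀ y, y ∈ Par M (T ∪ Subtype.val '' (J : Set ↥Tᶜ)) →
        y ∈ PJ (Par M T) (fun x : ↥Tᶜ => Par M (insert x.1 T)) J := by
      intro y hy
      rw [pj_par]
      exact hy
    induction hx using Subgroup.closure_induction with
    | mem y hy =>
      obtain ⟨s, hs, rfl⟩ := hy
      rw [hΦ]
      refine hFJ J hJ s fun h => ?_
      rcases hs with hs | ⟨a, ha, rfl⟩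
      · exact absurd hs h
      · exact ha
    | one => rw [map_one, hone J hJ]
    | mul x y hx hy ihx ihy => rw [map_mul, ihx, ihy, hmul J hJ x (hpj x hx) y (hpj y hy)]
    | inv x hx ih =>
      have h1 := hmul J hJ x (hpj x hx) x⁻¹ (inv_mem (hpj x hx))
      rw [mul_inv_cancel, hone J hJ] at h1
      rw [map_inv, ih]
      exact inv_eq_of_mul_eq_one_right h1.symm
  exact key x hx'

/-- Relative systems of subgroups in Artin groups. -/
theorem rs_par (T : Set S)
    (h : ∀ s t, s ∉ T → t ∉ T → s ≠ t → M s t ≠ 0 →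
      RG (Par M T) (Par M (insert s T)) (Par M (insert t T)) (M s t)) :
    RS (res M Tᶜ) (Par M T) (fun x : ↥Tᶜ => Par M (insert x.1 T)) where
  le := fun s => par_mono M (Set.subset_insert _ _)
  gen := by
    rw [eq_top_iff, ← par_univ, Par, Subgroup.closure_le]
    rintro _ ⟨s, -, rfl⟩
    by_cases hs : s ∈ T
    · exact (le_sup_left : Par M T ≤ _) (gen_mem M hs)
    · refine (le_sup_right : (⨆ x : ↥Tᶜ, Par M (insert x.1 T)) ≤ _) ?_
      exact (le_iSup (fun x : ↥Tᶜ => Par M (insert x.1 T)) ⟨s, hs⟩)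
        (gen_mem M (Set.mem_insert _ _))
  amal := amal_par T
  rg := fun s t hst h0 => h s.1 t.1 s.2 t.2 (fun e => hst (Subtype.ext e)) h0

end Pool.Agent.Helper54.EV
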